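import Pool.Agent.Helper96.QT.DefL

/-!
QTL6: the dual side for the Liouville function (`h` is only bounded at `-∞`, the shift may be negative).
-/

namespace Pool.Agent.QT

open Real Filter Topology MeasureTheory Set

private theorem exp_abs_int {b : ℝ} (hb : 0 < b) : Integrable (fun y : ℝ => Real.exp (-(b * |y|))) := by
  have h1 : IntegrableOn (fun y : ℝ => Real.exp (-(b * |y|))) (Set.Ioi 0) := by
    have h := exp_neg_integrableOn_Ioi 0 hb
    refine (integrableOn_congr_fun ?_ measurableSet_Ioi).mp h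
    intro x hx
    simp only
    rw [abs_of_pos hx]
    congr 1
    ring
  have h2 : IntegrableOn (fun y : ℝ => Real.exp (-(b * |y|))) (Set.Iic 0) := by
    have h3 : IntegrableOn (fun y : ℝ => Real.exp (b * y)) (Set.Iic 0) := integrableOn_exp_mul_Iic hb 0
    refine (integrableOn_congr_fun ?_ measurableSet_Iic).mp h3
    intro x hx
    simp only
    rw [abs_of_nonpos hx]
    congr 1
    ring
  have h3 := h2.union h1
  rw [Set.Iic_union_Ioi] at h3
  exact integrableOn_univ.mp h3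

private theorem half_abs_integral : ∫ y : ℝ, Real.exp (-(1 / 2 * |y|)) = 4 := by
  have h := integral_comp_abs (f := fun y : ℝ => Real.exp (-(1 / 2 * y)))
  rw [h]
  have e : ∫ y in Set.Ioi (0 : ℝ), Real.exp (-(1 / 2 * y)) = 2 := by
    have e6 := integral_exp_mul_Ioi (a := -(1 / 2 : ℝ)) (by norm_num) 0
    have e7 : ∀ y : ℝ, -(1 / 2 * y) = -(1 / 2) * y := fun y => by ring
    simp only [e7]
    rw [e6]
    simp
  rw [e]
  norm_num

private theorem one_sq_le (y : ℝ) : 1 + y ^ 2 ≤ 513 * Real.exp (|y| / 16) := by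
  have h1 : |y| / 16 + 1 ≤ Real.exp (|y| / 16) := Real.add_one_le_exp _
  have h0 : 0 ≤ |y| / 16 := by positivity
  have h2 : (|y| / 16) ^ 2 / 2 ≤ Real.exp (|y| / 16) := by
    have := Real.quadratic_le_exp_of_nonneg h0
    nlinarith
  have h3 : (|y| / 16) ^ 2 = y ^ 2 / 256 := by
    rw [div_pow, sq_abs]; norm_num
  rw [h3] at h2
  have h4 : 1 ≤ Real.exp (|y| / 16) := by linarith
  nlinarith

private theorem quart_int : Integrable (fun y : ℝ => (1 + y ^ 2) ^ 2 * Real.exp (-(1 / 4 * |y|))) := by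
  refine ((exp_abs_int (b := 1 / 8) (by norm_num)).const_mul (513 ^ 2)).mono' ?_ (Filter.Eventually.of_forall fun y => ?_)
  · exact (by fun_prop : Continuous fun y : ℝ => (1 + y ^ 2) ^ 2 * Real.exp (-(1 / 4 * |y|))).aestronglyMeasurable
  · rw [Real.norm_of_nonneg (by positivity)]
    have e1 : (1 + y ^ 2) ^ 2 ≤ (513 * Real.exp (|y| / 16)) ^ 2 := pow_le_pow_left₀ (by positivity) (one_sq_le y) 2
    calc (1 + y ^ 2) ^ 2 * Real.exp (-(1 / 4 * |y|)) ≤ (513 * Real.exp (|y| / 16)) ^ 2 * Real.exp (-(1 / 4 * |y|)) :=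
          mul_le_mul_of_nonneg_right e1 (Real.exp_nonneg _)
      _ = 513 ^ 2 * (Real.exp (|y| / 16) * Real.exp (|y| / 16) * Real.exp (-(1 / 4 * |y|))) := by ring
      _ = 513 ^ 2 * Real.exp (-(1 / 8 * |y|)) := by
          rw [← Real.exp_add, ← Real.exp_add]; congr 2; ring

private theorem c_nonneg {h : ℝ → ℂ} {c : ℝ} (h1 : ∀ y, ‖h y‖ ≤ c) : 0 ≤ c := (norm_nonneg _).trans (h1 0)

/-- exponential weights -/
private theorem wt_int {h : ℝ → ℂ} (hc : Continuous h) {c : ℝ} (h1 : ∀ y, ‖h y‖ ≤ c)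
    (h1' : ∀ y : ℝ, 0 ≤ y → ‖h y‖ ≤ c * Real.exp (-(y / 4)))
    {z : ℂ} (hz1 : -(1 / 4) < z.re) (hz2 : z.re < 0) : Integrable (fun y : ℝ => Complex.exp (-z * y) * h y) := by
  have hb : 0 < min (-z.re) (1 / 4 + z.re) := lt_min (by linarith) (by linarith)
  have hb1 : min (-z.re) (1 / 4 + z.re) ≤ -z.re := min_le_left _ _
  have hb2 : min (-z.re) (1 / 4 + z.re) ≤ 1 / 4 + z.re := min_le_right _ _
  have hc0 := c_nonneg h1
  refine ((exp_abs_int hb).const_mul c).mono' ?_ (Filter.Eventually.of_forall fun y => ?_)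
  · exact (Continuous.mul (by fun_prop) hc).aestronglyMeasurable
  · rw [norm_mul, Complex.norm_exp]
    have e1 : (-z * (y : ℂ)).re = -(z.re * y) := by simp
    rw [e1]
    rcases lt_or_ge y 0 with hy | hy
    · calc Real.exp (-(z.re * y)) * ‖h y‖ ≤ Real.exp (-(z.re * y)) * c :=
            mul_le_mul_of_nonneg_left (h1 y) (Real.exp_nonneg _)
        _ = c * Real.exp (-(z.re * y)) := by ring
        _ ≤ c * Real.exp (-(min (-z.re) (1 / 4 + z.re) * |y|)) := by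
            apply mul_le_mul_of_nonneg_left _ hc0
            apply Real.exp_le_exp.mpr
            rw [abs_of_neg hy]
            nlinarith
    · calc Real.exp (-(z.re * y)) * ‖h y‖ ≤ Real.exp (-(z.re * y)) * (c * Real.exp (-(y / 4))) :=
            mul_le_mul_of_nonneg_left (h1' y hy) (Real.exp_nonneg _)
        _ = c * (Real.exp (-(z.re * y)) * Real.exp (-(y / 4))) := by ring
        _ = c * Real.exp (-(z.re * y) + -(y / 4)) := by rw [← Real.exp_add]
        _ ≤ c * Real.exp (-(min (-z.re) (1 / 4 + z.re) * |y|)) := by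
            apply mul_le_mul_of_nonneg_left _ hc0
            apply Real.exp_le_exp.mpr
            rw [abs_of_nonneg hy]
            nlinarith

/-- the product is integrable -/
private theorem prod_int {F : ℝ → ℝ} (hm : Measurable F) (h0 : ∀ t < 0, F t = 0) {h : ℝ → ℂ} (hc : Continuous h)
    (Λ : ℝ) {w : ℝ → ℂ} (hw : Continuous w) {g : ℝ → ℝ}
    (hi : ∀ t, 0 ≤ t → Integrable (fun u : ℝ => w u * h (u + t + Λ)))
    (hg : ∀ t, 0 ≤ t → ∫ u : ℝ, ‖w u * h (u + t + Λ)‖ ≤ g t)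
    (hFg : Integrable (fun t : ℝ => |F t| * g t)) :
    Integrable (fun p : ℝ × ℝ => w p.1 * ((F p.2 : ℂ) * h (p.1 + p.2 + Λ))) (volume.prod volume) := by
  have hmeas : AEStronglyMeasurable (fun p : ℝ × ℝ => w p.1 * ((F p.2 : ℂ) * h (p.1 + p.2 + Λ)))
      ((volume : Measure ℝ).prod (volume : Measure ℝ)) := by
    refine Measurable.aestronglyMeasurable ?_
    refine Measurable.mul (hw.measurable.comp measurable_fst) (Measurable.mul ?_ ?_)
    · exact Complex.measurable_ofReal.comp (hm.comp measurable_snd)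
    · exact hc.measurable.comp ((measurable_fst.add measurable_snd).add_const Λ)
  rw [integrable_prod_iff' hmeas]
  constructor
  · refine Filter.Eventually.of_forall fun t => ?_
    rcases lt_or_ge t 0 with ht | ht
    · simp [h0 t ht]
    · have := (hi t ht).const_mul (F t : ℂ)
      refine this.congr (Filter.Eventually.of_forall fun u => ?_)
      simp only
      ring
  · refine hFg.mono' ?_ (Filter.Eventually.of_forall fun t => ?_)
    · have := (hmeas.prod_swap).norm.integral_prod_right'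
      simpa using this
    · rcases lt_or_ge t 0 with ht | ht
      · simp [h0 t ht]
      · have e1 : ∀ u : ℝ, ‖w u * ((F t : ℂ) * h (u + t + Λ))‖ = |F t| * ‖w u * h (u + t + Λ)‖ := by
          intro u
          rw [norm_mul, norm_mul, norm_mul, Complex.norm_real, Real.norm_eq_abs]
          ring
        simp only [e1]
        rw [integral_const_mul, Real.norm_of_nonneg
          (mul_nonneg (abs_nonneg _) (integral_nonneg fun u => norm_nonneg _))]
        exact mul_le_mul_of_nonneg_left (hg t ht) (abs_nonneg _)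

private theorem shift_eq (h : ℝ → ℂ) (z : ℂ) (s u : ℝ) :
    Complex.exp (-z * u) * h (u + s) = Complex.exp (z * s) * (Complex.exp (-z * ((u + s : ℝ) : ℂ)) * h (u + s)) := by
  rw [← mul_assoc, ← Complex.exp_add]
  congr 2
  push_cast
  ring

private theorem exp_prod_int {F : ℝ → ℝ} (hm : Measurable F) (h0 : ∀ t < 0, F t = 0)
    (hFi : ∀ x : ℝ, 0 < x → Integrable (fun t : ℝ => Real.exp (-(x * t)) * F t)) {h : ℝ → ℂ} (hc : Continuous h)
    {c : ℝ} (h1 : ∀ y, ‖h y‖ ≤ c) (h1' : ∀ y : ℝ, 0 ≤ y → ‖h y‖ ≤ c * Real.exp (-(y / 4)))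
    {Λ : ℝ} {z : ℂ} (hz1 : -(1 / 4) < z.re) (hz2 : z.re < 0) :
    Integrable (fun p : ℝ × ℝ => Complex.exp (-z * p.1) * ((F p.2 : ℂ) * h (p.1 + p.2 + Λ))) (volume.prod volume) := by
  have hi0 := wt_int hc h1 h1' hz1 hz2
  have hi : ∀ s : ℝ, Integrable (fun u : ℝ => Complex.exp (-z * u) * h (u + s)) := by
    intro s
    have h2 := (hi0.comp_add_right s).const_mul (Complex.exp (z * s))
    refine h2.congr (Filter.Eventually.of_forall fun u => ?_)
    simp only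
    rw [shift_eq h z s u]
  have hI : ∀ s : ℝ, ∫ u : ℝ, ‖Complex.exp (-z * u) * h (u + s)‖ =
      Real.exp (z.re * s) * ∫ y : ℝ, ‖Complex.exp (-z * y) * h y‖ := by
    intro s
    have e1 : ∀ u : ℝ, ‖Complex.exp (-z * u) * h (u + s)‖ =
        Real.exp (z.re * s) * ‖Complex.exp (-z * ((u + s : ℝ) : ℂ)) * h (u + s)‖ := by
      intro u
      rw [shift_eq h z s u, norm_mul, Complex.norm_exp]
      congr 2
      simp
    simp only [e1]
    rw [integral_const_mul]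
    congr 1
    exact integral_add_right_eq_self (fun y : ℝ => ‖Complex.exp (-z * (y : ℂ)) * h y‖) s
  refine prod_int hm h0 hc Λ (w := fun u => Complex.exp (-z * u))
    (g := fun t => Real.exp (z.re * (t + Λ)) * ∫ y : ℝ, ‖Complex.exp (-z * y) * h y‖) (by fun_prop) ?_ ?_ ?_
  · intro t _
    have := hi (t + Λ)
    simpa only [add_assoc] using this
  · intro t _
    have := hI (t + Λ)
    simp only [← add_assoc] at this
    exact this.le
  · have h2 := (hFi (-z.re) (by linarith)).norm.const_mul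
      (Real.exp (z.re * Λ) * ∫ y : ℝ, ‖Complex.exp (-z * y) * h y‖)
    refine h2.congr (Filter.Eventually.of_forall fun t => ?_)
    simp only
    rw [norm_mul, Real.norm_of_nonneg (Real.exp_nonneg _), Real.norm_eq_abs]
    have e2 : Real.exp (z.re * (t + Λ)) = Real.exp (z.re * Λ) * Real.exp (-(-z.re * t)) := by
      rw [← Real.exp_add]; congr 1; ring
    rw [e2]
    ring

private theorem peetre (x y : ℝ) : (1 + (y - x) ^ 2)⁻¹ ≤ 2 * (1 + x ^ 2)⁻¹ * (1 + y ^ 2) := by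
  have h1 : 0 < 1 + (y - x) ^ 2 := by positivity
  have h2 : 0 < 1 + x ^ 2 := by positivity
  rw [inv_eq_one_div, inv_eq_one_div, div_le_iff₀ h1]
  have h3 : 2 * (1 / (1 + x ^ 2)) * (1 + y ^ 2) * (1 + (y - x) ^ 2) =
      2 * ((1 + y ^ 2) * (1 + (y - x) ^ 2)) / (1 + x ^ 2) := by ring
  rw [h3, le_div_iff₀ h2]
  nlinarith [sq_nonneg (y * (y - x) - 1), sq_nonneg (2 * y - x), sq_nonneg (y * (y - x)), sq_nonneg (y + (y - x)), sq_nonneg (y - (y - x))]

private theorem four_integral (s : ℝ) (hs : 0 ≤ s) :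
    ∫ v in Set.Ioi (0 : ℝ), ((1 + s + v) ^ 4)⁻¹ = ((1 + s) ^ 3)⁻¹ / 3 := by
  have hd : ∀ x ∈ Set.Ici (0 : ℝ), HasDerivAt (fun v : ℝ => -(((1 + s + v) ^ 3)⁻¹ / 3)) (((1 + s + x) ^ 4)⁻¹) x := by
    intro x hx
    have hx0 : (0 : ℝ) ≤ x := hx
    have hp : (0 : ℝ) < 1 + s + x := by linarith
    have e1 : HasDerivAt (fun v : ℝ => 1 + s + v) 1 x := by
      simpa using (hasDerivAt_id x).const_add (1 + s)
    have e2 := (((e1.fun_pow 3).fun_inv (pow_ne_zero 3 hp.ne')).div_const 3).fun_neg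
    have hne := hp.ne'
    have e3 : -(-((3 : ℕ) * (1 + s + x) ^ (3 - 1) * 1) / ((1 + s + x) ^ 3) ^ 2 / 3) = ((1 + s + x) ^ 4)⁻¹ := by
      push_cast
      norm_num
      field_simp
    rw [← e3]
    exact e2
  have hl : Tendsto (fun v : ℝ => -(((1 + s + v) ^ 3)⁻¹ / 3)) atTop (𝓝 0) := by
    have e1 : Tendsto (fun v : ℝ => 1 + s + v) atTop atTop := tendsto_atTop_add_const_left _ _ tendsto_id
    have e2 : Tendsto (fun v : ℝ => (1 + s + v) ^ 3) atTop atTop := (tendsto_pow_atTop (by norm_num)).comp e1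
    have e3 := (e2.inv_tendsto_atTop.div_const 3).neg
    simpa using e3
  have h := integral_Ioi_of_hasDerivAt_of_nonneg' hd (fun x hx => by
    have hx0 : (0 : ℝ) < x := hx
    positivity) hl
  rw [h]
  simp

private theorem four_abs_int (s : ℝ) (hs : 0 ≤ s) : Integrable (fun y : ℝ => ((1 + s + |y|) ^ 4)⁻¹) := by
  refine integrable_inv_one_add_sq.mono' ?_ (Filter.Eventually.of_forall fun y => ?_)
  · refine Continuous.aestronglyMeasurable (Continuous.inv₀ (by fun_prop) fun y => ?_)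
    have := abs_nonneg y
    positivity
  · have hy := abs_nonneg y
    rw [Real.norm_of_nonneg (by positivity)]
    apply inv_anti₀ (by positivity)
    have e1 : (1 + |y|) ^ 4 ≤ (1 + s + |y|) ^ 4 := pow_le_pow_left₀ (by positivity) (by linarith) 4
    have e2 : (1 + |y|) ^ 2 ≤ (1 + |y|) ^ 4 := pow_le_pow_right₀ (by linarith) (by norm_num)
    have e3 : 1 + y ^ 2 ≤ (1 + |y|) ^ 2 := by
      have := sq_abs y
      nlinarith
    linarith

private theorem four_abs_integral (s : ℝ) (hs : 0 ≤ s) : ∫ y : ℝ, ((1 + s + |y|) ^ 4)⁻¹ ≤ ((1 + s) ^ 3)⁻¹ := by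
  have h := integral_comp_abs (f := fun y : ℝ => ((1 + s + y) ^ 4)⁻¹)
  rw [h, four_integral s hs]
  have : 0 ≤ ((1 + s) ^ 3)⁻¹ := by positivity
  linarith

/-- the weight against `h` -/
private theorem w_bound {h : ℝ → ℂ} (hc : Continuous h) {c : ℝ} (h1 : ∀ y, ‖h y‖ ≤ c)
    (h1' : ∀ y : ℝ, 0 ≤ y → ‖h y‖ ≤ c * Real.exp (-(y / 4))) : ∃ K : ℝ, 0 ≤ K ∧ ∀ s : ℝ,
      Integrable (fun u : ℝ => ((((1 + u ^ 2) ^ 2)⁻¹ : ℝ) : ℂ) * h (u + s)) ∧
      ∫ u : ℝ, ‖((((1 + u ^ 2) ^ 2)⁻¹ : ℝ) : ℂ) * h (u + s)‖ ≤ K ∧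
      (0 ≤ s → ∫ u : ℝ, ‖((((1 + u ^ 2) ^ 2)⁻¹ : ℝ) : ℂ) * h (u + s)‖ ≤ K * ((1 + s) ^ 3)⁻¹) := by
  have hc0 := c_nonneg h1
  have hq : 0 ≤ ∫ y : ℝ, (1 + y ^ 2) ^ 2 * Real.exp (-(1 / 4 * |y|)) := integral_nonneg fun y => by positivity
  have hwc : Continuous (fun u : ℝ => ((((1 + u ^ 2) ^ 2)⁻¹ : ℝ) : ℂ)) := by
    refine Complex.continuous_ofReal.comp (Continuous.inv₀ (by fun_prop) fun u => ?_)
    positivity
  have hn : ∀ s u : ℝ, ‖((((1 + u ^ 2) ^ 2)⁻¹ : ℝ) : ℂ) * h (u + s)‖ = ((1 + u ^ 2) ^ 2)⁻¹ * ‖h (u + s)‖ := by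
    intro s u
    rw [norm_mul, Complex.norm_real, Real.norm_of_nonneg (by positivity)]
  have hle : ∀ u : ℝ, ((1 + u ^ 2) ^ 2)⁻¹ ≤ (1 + u ^ 2)⁻¹ := by
    intro u
    apply inv_anti₀ (by positivity)
    nlinarith [sq_nonneg u, sq_nonneg (u ^ 2)]
  have hb : ∀ s u : ℝ, ‖((((1 + u ^ 2) ^ 2)⁻¹ : ℝ) : ℂ) * h (u + s)‖ ≤ c * (1 + u ^ 2)⁻¹ := by
    intro s u
    rw [hn, mul_comm]
    exact mul_le_mul (h1 _) (hle u) (by positivity) hc0
  have hi : ∀ s : ℝ, Integrable (fun u : ℝ => ((((1 + u ^ 2) ^ 2)⁻¹ : ℝ) : ℂ) * h (u + s)) := by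
    intro s
    refine (integrable_inv_one_add_sq.const_mul c).mono' ?_ (Filter.Eventually.of_forall (hb s))
    exact (hwc.mul (hc.comp (by fun_prop))).aestronglyMeasurable
  refine ⟨c * π + (4 * c + 16 * c * ∫ y : ℝ, (1 + y ^ 2) ^ 2 * Real.exp (-(1 / 4 * |y|))), ?_, fun s => ⟨hi s, ?_, ?_⟩⟩
  · have := Real.pi_pos
    positivity
  · have e1 : ∫ u : ℝ, ‖((((1 + u ^ 2) ^ 2)⁻¹ : ℝ) : ℂ) * h (u + s)‖ ≤ ∫ u : ℝ, c * (1 + u ^ 2)⁻¹ :=
      integral_mono (hi s).norm (integrable_inv_one_add_sq.const_mul c) (hb s)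
    rw [integral_const_mul, integral_univ_inv_one_add_sq] at e1
    have : 0 ≤ 4 * c + 16 * c * ∫ y : ℝ, (1 + y ^ 2) ^ 2 * Real.exp (-(1 / 4 * |y|)) := by positivity
    linarith
  · intro hs
    have e0 : ∫ u : ℝ, ‖((((1 + u ^ 2) ^ 2)⁻¹ : ℝ) : ℂ) * h (u + s)‖ =
        ∫ y : ℝ, ((1 + (y - s) ^ 2) ^ 2)⁻¹ * ‖h y‖ := by
      rw [← integral_add_right_eq_self (fun y : ℝ => ((1 + (y - s) ^ 2) ^ 2)⁻¹ * ‖h y‖) s]
      refine integral_congr_ae (Filter.Eventually.of_forall fun u => ?_)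
      simp only
      rw [hn]
      congr 4
      ring
    have hbd : ∀ y : ℝ, ((1 + (y - s) ^ 2) ^ 2)⁻¹ * ‖h y‖ ≤ (4 * c) * ((1 + s + |y|) ^ 4)⁻¹ +
        (16 * c * ((1 + s) ^ 3)⁻¹) * ((1 + y ^ 2) ^ 2 * Real.exp (-(1 / 4 * |y|))) := by
      intro y
      rcases lt_or_ge y 0 with hy | hy
      · have p1 : 0 ≤ (16 * c * ((1 + s) ^ 3)⁻¹) * ((1 + y ^ 2) ^ 2 * Real.exp (-(1 / 4 * |y|))) := by positivity
        have p2 : ((1 + (y - s) ^ 2) ^ 2)⁻¹ ≤ 4 * ((1 + s + |y|) ^ 4)⁻¹ := by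
          have q1 : 0 < (1 + s + |y|) ^ 4 := by
            have := abs_nonneg y
            positivity
          have q2 : 0 < (1 + (y - s) ^ 2) ^ 2 := by positivity
          rw [inv_eq_one_div, inv_eq_one_div, mul_one_div, div_le_div_iff₀ q2 q1, one_mul]
          rw [abs_of_neg hy]
          have q3 : (1 + s + -y) ^ 2 ≤ 2 * (1 + (y - s) ^ 2) := by nlinarith [sq_nonneg (1 - (s - y))]
          have q4 : (1 + s + -y) ^ 4 = ((1 + s + -y) ^ 2) ^ 2 := by ring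
          rw [q4]
          have q5 := pow_le_pow_left₀ (sq_nonneg _) q3 2
          calc _ ≤ _ := q5
            _ = _ := by ring
        calc ((1 + (y - s) ^ 2) ^ 2)⁻¹ * ‖h y‖ ≤ (4 * ((1 + s + |y|) ^ 4)⁻¹) * c :=
              mul_le_mul p2 (h1 y) (norm_nonneg _) (by positivity)
          _ = (4 * c) * ((1 + s + |y|) ^ 4)⁻¹ := by ring
          _ ≤ _ := le_add_of_nonneg_right p1
      · have p1 : 0 ≤ (4 * c) * ((1 + s + |y|) ^ 4)⁻¹ := by
          have := abs_nonneg y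
          positivity
        have p2 : ((1 + (y - s) ^ 2) ^ 2)⁻¹ ≤ 16 * ((1 + s) ^ 3)⁻¹ * (1 + y ^ 2) ^ 2 := by
          have q1 := peetre s y
          have q2 : ((1 + (y - s) ^ 2) ^ 2)⁻¹ ≤ (2 * (1 + s ^ 2)⁻¹ * (1 + y ^ 2)) ^ 2 := by
            rw [← inv_pow]
            exact pow_le_pow_left₀ (by positivity) q1 2
          have q3 : ((1 + s ^ 2)⁻¹) ^ 2 ≤ 4 * ((1 + s) ^ 3)⁻¹ := by
            rw [inv_pow, inv_eq_one_div, inv_eq_one_div, mul_one_div, div_le_div_iff₀ (by positivity) (by positivity), one_mul]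
            have r1 : (1 + s) ^ 2 ≤ 2 * (1 + s ^ 2) := by nlinarith [sq_nonneg (1 - s)]
            have r2 := pow_le_pow_left₀ (sq_nonneg _) r1 2
            have r3 : (1 + s) ^ 3 ≤ ((1 + s) ^ 2) ^ 2 := by
              rw [← pow_mul]
              exact pow_le_pow_right₀ (by linarith) (by norm_num)
            calc (1 + s) ^ 3 ≤ _ := r3
              _ ≤ _ := r2
              _ = _ := by ring
          calc ((1 + (y - s) ^ 2) ^ 2)⁻¹ ≤ _ := q2
            _ = 4 * (((1 + s ^ 2)⁻¹) ^ 2) * (1 + y ^ 2) ^ 2 := by ring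
            _ ≤ 4 * (4 * ((1 + s) ^ 3)⁻¹) * (1 + y ^ 2) ^ 2 := by
                apply mul_le_mul_of_nonneg_right _ (by positivity)
                linarith
            _ = _ := by ring
        have p3 : ‖h y‖ ≤ c * Real.exp (-(1 / 4 * |y|)) := by
          refine (h1' y hy).trans (le_of_eq ?_)
          rw [abs_of_nonneg hy]
          congr 2
          ring
        calc ((1 + (y - s) ^ 2) ^ 2)⁻¹ * ‖h y‖ ≤ (16 * ((1 + s) ^ 3)⁻¹ * (1 + y ^ 2) ^ 2) *
              (c * Real.exp (-(1 / 4 * |y|))) := mul_le_mul p2 p3 (norm_nonneg _) (by positivity)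
          _ = (16 * c * ((1 + s) ^ 3)⁻¹) * ((1 + y ^ 2) ^ 2 * Real.exp (-(1 / 4 * |y|))) := by ring
          _ ≤ _ := le_add_of_nonneg_left p1
    have iB : Integrable (fun y : ℝ => (4 * c) * ((1 + s + |y|) ^ 4)⁻¹ +
        (16 * c * ((1 + s) ^ 3)⁻¹) * ((1 + y ^ 2) ^ 2 * Real.exp (-(1 / 4 * |y|)))) :=
      ((four_abs_int s hs).const_mul _).add (quart_int.const_mul _)
    have iA : Integrable (fun y : ℝ => ((1 + (y - s) ^ 2) ^ 2)⁻¹ * ‖h y‖) := by
      refine iB.mono' ?_ (Filter.Eventually.of_forall fun y => ?_)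
      · refine Continuous.aestronglyMeasurable (Continuous.mul (Continuous.inv₀ (by fun_prop) fun u => ?_) hc.norm)
        positivity
      · rw [Real.norm_of_nonneg (by positivity)]
        exact hbd y
    have e1 := integral_mono iA iB hbd
    rw [integral_add ((four_abs_int s hs).const_mul _) (quart_int.const_mul _), integral_const_mul, integral_const_mul] at e1
    rw [e0]
    have e2 := four_abs_integral s hs
    have e3 : 0 ≤ c * π * ((1 + s) ^ 3)⁻¹ := by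
      have := Real.pi_pos
      positivity
    have e4 : 4 * c * ∫ y : ℝ, ((1 + s + |y|) ^ 4)⁻¹ ≤ 4 * c * ((1 + s) ^ 3)⁻¹ :=
      mul_le_mul_of_nonneg_left e2 (by positivity)
    nlinarith

private theorem wt_prod_int {F : ℝ → ℝ} (hm : Measurable F) (h0 : ∀ t < 0, F t = 0)
    (hFw : Integrable (fun t : ℝ => F t * ((1 + |t|) ^ 3)⁻¹)) {h : ℝ → ℂ} (hc : Continuous h)
    {c : ℝ} (h1 : ∀ y, ‖h y‖ ≤ c) (h1' : ∀ y : ℝ, 0 ≤ y → ‖h y‖ ≤ c * Real.exp (-(y / 4))) (Λ : ℝ) :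
    Integrable (fun p : ℝ × ℝ => ((((1 + p.1 ^ 2) ^ 2)⁻¹ : ℝ) : ℂ) * ((F p.2 : ℂ) * h (p.1 + p.2 + Λ)))
      (volume.prod volume) := by
  obtain ⟨K, hK, hs⟩ := w_bound hc h1 h1'
  have hwc : Continuous (fun u : ℝ => ((((1 + u ^ 2) ^ 2)⁻¹ : ℝ) : ℂ)) := by
    refine Complex.continuous_ofReal.comp (Continuous.inv₀ (by fun_prop) fun u => ?_)
    positivity
  refine prod_int hm h0 hc Λ (g := fun t => K * (1 + |Λ|) ^ 3 * ((1 + |t|) ^ 3)⁻¹) hwc ?_ ?_ ?_
  · intro t _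
    have := (hs (t + Λ)).1
    simpa only [add_assoc] using this
  · intro t ht
    have e1 := (hs (t + Λ)).2.1
    have e2 := (hs (t + Λ)).2.2
    simp only [← add_assoc] at e1 e2
    have hL := abs_nonneg Λ
    have hL1 := neg_abs_le Λ
    rcases lt_or_ge (t + Λ) 0 with hn | hp
    · refine e1.trans ?_
      have e3 : (1 + |t|) ^ 3 ≤ (1 + |Λ|) ^ 3 := by
        apply pow_le_pow_left₀ (by positivity)
        rw [abs_of_nonneg ht]
        linarith
      have e4 : 0 < (1 + |t|) ^ 3 := by positivity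
      have e5 : 1 ≤ (1 + |Λ|) ^ 3 * ((1 + |t|) ^ 3)⁻¹ := by
        rw [← div_eq_mul_inv, le_div_iff₀ e4, one_mul]
        exact e3
      calc K = K * 1 := by ring
        _ ≤ K * ((1 + |Λ|) ^ 3 * ((1 + |t|) ^ 3)⁻¹) := mul_le_mul_of_nonneg_left e5 hK
        _ = _ := by ring
    · refine (e2 hp).trans ?_
      rw [mul_assoc]
      apply mul_le_mul_of_nonneg_left _ hK
      have p1 : 0 < (1 + (t + Λ)) ^ 3 := by positivity
      have p2 : 0 < (1 + |t|) ^ 3 := by positivity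
      have p3 : (1 + |t|) ^ 3 ≤ ((1 + |Λ|) * (1 + (t + Λ))) ^ 3 := by
        apply pow_le_pow_left₀ (by positivity)
        rw [abs_of_nonneg ht]
        nlinarith
      have e6 : (1 + t + Λ) = 1 + (t + Λ) := by ring
      rw [e6, ← div_eq_mul_inv, inv_eq_one_div, div_le_div_iff₀ p1 p2, one_mul]
      calc (1 + |t|) ^ 3 ≤ _ := p3
        _ = _ := by ring
  · have h2 := hFw.norm.const_mul (K * (1 + |Λ|) ^ 3)
    refine h2.congr (Filter.Eventually.of_forall fun t => ?_)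
    simp only
    rw [norm_mul, Real.norm_eq_abs, Real.norm_of_nonneg (by positivity)]
    ring

private theorem F_int {F : ℝ → ℝ} (h0 : ∀ t < 0, F t = 0)
    (hFi : ∀ x : ℝ, 0 < x → Integrable (fun t : ℝ => Real.exp (-(x * t)) * F t)) (hm : Measurable F)
    {k : ℝ → ℂ} (hk : Continuous k) {b A : ℝ} (hb : 0 < b) (hkb : ∀ t, 0 ≤ t → ‖k t‖ ≤ A * Real.exp (-(b * t))) :
    Integrable (fun t : ℝ => (F t : ℂ) * k t) := by
  refine ((hFi b hb).norm.const_mul A).mono' ?_ (Filter.Eventually.of_forall fun t => ?_)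
  · exact ((Complex.measurable_ofReal.comp hm).mul hk.measurable).aestronglyMeasurable
  · rcases lt_or_ge t 0 with ht | ht
    · simp [h0 t ht]
    · rw [norm_mul, Complex.norm_real, norm_mul, Real.norm_of_nonneg (Real.exp_nonneg _)]
      calc ‖F t‖ * ‖k t‖ ≤ ‖F t‖ * (A * Real.exp (-(b * t))) := mul_le_mul_of_nonneg_left (hkb t ht) (norm_nonneg _)
        _ = A * (Real.exp (-(b * t)) * ‖F t‖) := by ring

private theorem h_shift_le {h : ℝ → ℂ} {c : ℝ} (h1 : ∀ y, ‖h y‖ ≤ c)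
    (h1' : ∀ y : ℝ, 0 ≤ y → ‖h y‖ ≤ c * Real.exp (-(y / 4))) (Λ u U : ℝ)
    (hU : |u + Λ| ≤ U) (t : ℝ) :
    ‖h (u + t + Λ)‖ ≤ (c * Real.exp (U / 4)) * Real.exp (-(1 / 4 * t)) := by
  have hc0 := c_nonneg h1
  have e1 : -(u + Λ) ≤ U := (neg_le_abs _).trans hU
  rw [mul_assoc, ← Real.exp_add]
  rcases lt_or_ge (u + t + Λ) 0 with hy | hy
  · refine (h1 _).trans ?_
    have e2 : (1 : ℝ) ≤ Real.exp (U / 4 + -(1 / 4 * t)) := Real.one_le_exp (by linarith)
    nlinarith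
  · refine (h1' _ hy).trans ?_
    apply mul_le_mul_of_nonneg_left _ hc0
    apply Real.exp_le_exp.mpr
    linarith

private theorem DD_cont {F : ℝ → ℝ} (hm : Measurable F) (h0 : ∀ t < 0, F t = 0)
    (hFi : ∀ x : ℝ, 0 < x → Integrable (fun t : ℝ => Real.exp (-(x * t)) * F t)) {h : ℝ → ℂ} (hc : Continuous h)
    {c : ℝ} (h1 : ∀ y, ‖h y‖ ≤ c) (h1' : ∀ y : ℝ, 0 ≤ y → ‖h y‖ ≤ c * Real.exp (-(y / 4))) {Λ : ℝ} :
    Continuous (DD h Λ F) := by
  rw [continuous_iff_continuousAt]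
  intro u₀
  unfold DD
  refine continuousAt_of_dominated (bound := fun t => (c * Real.exp ((|u₀ + Λ| + 1) / 4)) *
    ‖Real.exp (-(1 / 4 * t)) * F t‖) ?_ ?_ ?_ ?_
  · refine Filter.Eventually.of_forall fun u => ?_
    exact ((Complex.measurable_ofReal.comp hm).mul (hc.measurable.comp (by fun_prop))).aestronglyMeasurable
  · filter_upwards [Metric.ball_mem_nhds u₀ one_pos] with u hu
    refine Filter.Eventually.of_forall fun t => ?_
    have hU : |u + Λ| ≤ |u₀ + Λ| + 1 := by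
      rw [Metric.mem_ball, Real.dist_eq] at hu
      have : u + Λ = (u₀ + Λ) + (u - u₀) := by ring
      rw [this]
      exact (abs_add_le _ _).trans (by linarith)
    rw [norm_mul, Complex.norm_real, norm_mul, Real.norm_of_nonneg (Real.exp_nonneg _)]
    calc ‖F t‖ * ‖h (u + t + Λ)‖ ≤ ‖F t‖ * ((c * Real.exp ((|u₀ + Λ| + 1) / 4)) * Real.exp (-(1 / 4 * t))) :=
          mul_le_mul_of_nonneg_left (h_shift_le h1 h1' Λ u _ hU t) (norm_nonneg _)
      _ = _ := by ring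
  · exact (hFi (1 / 4) (by norm_num)).norm.const_mul _
  · refine Filter.Eventually.of_forall fun t => ?_
    exact (continuous_const.mul (hc.comp (by fun_prop))).continuousAt

private theorem texp_le (t : ℝ) (ht : 0 ≤ t) : t * Real.exp (-(t / 2)) ≤ 4 * Real.exp (-(1 / 4 * t)) := by
  have h1 : t / 4 + 1 ≤ Real.exp (t / 4) := Real.add_one_le_exp _
  have h2 : t ≤ 4 * Real.exp (t / 4) := by linarith
  calc t * Real.exp (-(t / 2)) ≤ (4 * Real.exp (t / 4)) * Real.exp (-(t / 2)) :=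
        mul_le_mul_of_nonneg_right h2 (Real.exp_nonneg _)
    _ = 4 * (Real.exp (t / 4) * Real.exp (-(t / 2))) := by ring
    _ = 4 * Real.exp (-(1 / 4 * t)) := by rw [← Real.exp_add]; congr 2; ring

/-- the expansion of `h`, integrated against `F` -/
private theorem main_part {F : ℝ → ℝ} (hm : Measurable F) (h0 : ∀ t < 0, F t = 0)
    (hFi : ∀ x : ℝ, 0 < x → Integrable (fun t : ℝ => Real.exp (-(x * t)) * F t)) (A₀ A₁ : ℂ) (v : ℝ) :
    Integrable (fun t : ℝ => (F t : ℂ) * (Complex.exp (-(((v + t : ℝ) : ℂ) / 2)) * (A₀ * ((v + t : ℝ) : ℂ) + A₁))) ∧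
    ‖∫ t : ℝ, (F t : ℂ) * (Complex.exp (-(((v + t : ℝ) : ℂ) / 2)) * (A₀ * ((v + t : ℝ) : ℂ) + A₁))‖ ≤
      Real.exp (-(v / 2)) * ((‖A₀‖ * |v| + ‖A₁‖) * |∫ t : ℝ, Real.exp (-(t / 2)) * F t| +
          ‖A₀‖ * |∫ t : ℝ, Real.exp (-(t / 2)) * (t * F t)|) := by
  have i1 : Integrable (fun t : ℝ => (F t : ℂ) * ((Real.exp (-(t / 2)) : ℝ) : ℂ)) := by
    refine F_int h0 hFi hm (k := fun t => ((Real.exp (-(t / 2)) : ℝ) : ℂ)) (by fun_prop) (b := 1 / 2) (A := 1)
      (by norm_num) fun t _ => ?_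
    rw [Complex.norm_real, Real.norm_of_nonneg (Real.exp_nonneg _), one_mul]
    apply le_of_eq; congr 1; ring
  have i2 : Integrable (fun t : ℝ => (F t : ℂ) * ((t * Real.exp (-(t / 2)) : ℝ) : ℂ)) := by
    refine F_int h0 hFi hm (k := fun t => ((t * Real.exp (-(t / 2)) : ℝ) : ℂ)) (by fun_prop) (b := 1 / 4) (A := 4)
      (by norm_num) fun t ht => ?_
    rw [Complex.norm_real, Real.norm_of_nonneg (by positivity)]
    exact texp_le t ht
  have eM : (fun t : ℝ => (F t : ℂ) * (Complex.exp (-(((v + t : ℝ) : ℂ) / 2)) * (A₀ * ((v + t : ℝ) : ℂ) + A₁))) =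
      fun t => ((Real.exp (-(v / 2)) : ℝ) : ℂ) * (A₀ * (v : ℂ) + A₁) *
        ((F t : ℂ) * ((Real.exp (-(t / 2)) : ℝ) : ℂ)) +
      ((Real.exp (-(v / 2)) : ℝ) : ℂ) * A₀ * ((F t : ℂ) * ((t * Real.exp (-(t / 2)) : ℝ) : ℂ)) := by
    funext t
    have e1 : Complex.exp (-(((v + t : ℝ) : ℂ) / 2)) =
        ((Real.exp (-(v / 2)) : ℝ) : ℂ) * ((Real.exp (-(t / 2)) : ℝ) : ℂ) := by
      rw [← Complex.ofReal_mul, ← Real.exp_add, Complex.ofReal_exp]
      congr 1
      push_cast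
      ring
    rw [e1]
    push_cast
    ring
  rw [eM]
  refine ⟨(i1.const_mul _).add (i2.const_mul _), ?_⟩
  rw [integral_add (i1.const_mul _) (i2.const_mul _), integral_const_mul, integral_const_mul]
  have v1 : ∫ t : ℝ, (F t : ℂ) * ((Real.exp (-(t / 2)) : ℝ) : ℂ) = ((∫ t : ℝ, Real.exp (-(t / 2)) * F t : ℝ) : ℂ) := by
    rw [← integral_complex_ofReal]
    congr 1
    funext t
    push_cast
    ring
  have v2 : ∫ t : ℝ, (F t : ℂ) * ((t * Real.exp (-(t / 2)) : ℝ) : ℂ) =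
      ((∫ t : ℝ, Real.exp (-(t / 2)) * (t * F t) : ℝ) : ℂ) := by
    rw [← integral_complex_ofReal]
    congr 1
    funext t
    push_cast
    ring
  rw [v1, v2]
  refine (norm_add_le _ _).trans ?_
  rw [norm_mul, norm_mul, norm_mul, norm_mul, Complex.norm_real, Complex.norm_real, Complex.norm_real,
    Real.norm_of_nonneg (Real.exp_nonneg _), Real.norm_eq_abs, Real.norm_eq_abs]
  have e2 : ‖A₀ * (v : ℂ) + A₁‖ ≤ ‖A₀‖ * |v| + ‖A₁‖ := by
    refine (norm_add_le _ _).trans ?_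
    rw [norm_mul, Complex.norm_real, Real.norm_eq_abs]
  have e3 : Real.exp (-(v / 2)) * ‖A₀ * (v : ℂ) + A₁‖ * |∫ t : ℝ, Real.exp (-(t / 2)) * F t| ≤
      Real.exp (-(v / 2)) * (‖A₀‖ * |v| + ‖A₁‖) * |∫ t : ℝ, Real.exp (-(t / 2)) * F t| :=
    mul_le_mul_of_nonneg_right (mul_le_mul_of_nonneg_left e2 (Real.exp_nonneg _)) (abs_nonneg _)
  calc _ ≤ Real.exp (-(v / 2)) * (‖A₀‖ * |v| + ‖A₁‖) * |∫ t : ℝ, Real.exp (-(t / 2)) * F t| +
        Real.exp (-(v / 2)) * ‖A₀‖ * |∫ t : ℝ, Real.exp (-(t / 2)) * (t * F t)| := add_le_add e3 le_rfl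
    _ = _ := by ring

private theorem DD_split {F : ℝ → ℝ} (hm : Measurable F) (h0 : ∀ t < 0, F t = 0)
    (hFi : ∀ x : ℝ, 0 < x → Integrable (fun t : ℝ => Real.exp (-(x * t)) * F t)) {h : ℝ → ℂ} (hc : Continuous h)
    {c : ℝ} (h1 : ∀ y, ‖h y‖ ≤ c) (h1' : ∀ y : ℝ, 0 ≤ y → ‖h y‖ ≤ c * Real.exp (-(y / 4))) (A₀ A₁ : ℂ)
    (Λ u : ℝ) {R : ℝ} {B : ℝ → ℝ} (hB : Integrable B) (hR : ∫ t, B t ≤ R)
    (hb : ∀ t, ‖(F t : ℂ) * (h (u + Λ + t) - Complex.exp (-(((u + Λ + t : ℝ) : ℂ) / 2)) *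
      (A₀ * ((u + Λ + t : ℝ) : ℂ) + A₁))‖ ≤ B t) :
    ‖DD h Λ F u‖ ≤ Real.exp (-((u + Λ) / 2)) * ((‖A₀‖ * |u + Λ| + ‖A₁‖) * |∫ t : ℝ, Real.exp (-(t / 2)) * F t| +
          ‖A₀‖ * |∫ t : ℝ, Real.exp (-(t / 2)) * (t * F t)|) + R := by
  obtain ⟨iM, nM⟩ := main_part hm h0 hFi A₀ A₁ (u + Λ)
  have e0 : DD h Λ F u = ∫ t : ℝ, (F t : ℂ) * h (u + Λ + t) := by
    unfold DD
    refine integral_congr_ae (Filter.Eventually.of_forall fun t => ?_)
    simp only
    congr 2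
    ring
  have i3 : Integrable (fun t : ℝ => (F t : ℂ) * h (u + Λ + t)) := by
    refine F_int h0 hFi hm (k := fun t => h (u + Λ + t)) (hc.comp (by fun_prop)) (b := 1 / 4)
      (A := c * Real.exp (|u + Λ| / 4)) (by norm_num) fun t ht => ?_
    have := h_shift_le h1 h1' Λ u _ le_rfl t
    have e1 : u + t + Λ = u + Λ + t := by ring
    rwa [e1] at this
  have hd : DD h Λ F u = (∫ t : ℝ, (F t : ℂ) * (Complex.exp (-(((u + Λ + t : ℝ) : ℂ) / 2)) *
      (A₀ * ((u + Λ + t : ℝ) : ℂ) + A₁))) + ∫ t : ℝ, (F t : ℂ) * (h (u + Λ + t) -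
      Complex.exp (-(((u + Λ + t : ℝ) : ℂ) / 2)) * (A₀ * ((u + Λ + t : ℝ) : ℂ) + A₁)) := by
    have e4 : ∀ t : ℝ, (F t : ℂ) * (h (u + Λ + t) - Complex.exp (-(((u + Λ + t : ℝ) : ℂ) / 2)) *
        (A₀ * ((u + Λ + t : ℝ) : ℂ) + A₁)) = (F t : ℂ) * h (u + Λ + t) - (F t : ℂ) *
        (Complex.exp (-(((u + Λ + t : ℝ) : ℂ) / 2)) * (A₀ * ((u + Λ + t : ℝ) : ℂ) + A₁)) := fun t => by ring
    simp only [e4]
    rw [integral_sub i3 iM, e0]
    ring
  rw [hd]
  refine (norm_add_le _ _).trans (add_le_add nM ?_)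
  exact (norm_integral_le_of_norm_le hB (Filter.Eventually.of_forall hb)).trans hR

private theorem DD_bound {F : ℝ → ℝ} (hm : Measurable F) (h0 : ∀ t < 0, F t = 0) (hF : ∀ t, |F t| ≤ Real.exp (t / 2))
    (hFi : ∀ x : ℝ, 0 < x → Integrable (fun t : ℝ => Real.exp (-(x * t)) * F t)) {h : ℝ → ℂ} (hc : Continuous h)
    {A₀ A₁ : ℂ} {c : ℝ} (h1 : ∀ y, ‖h y‖ ≤ c) (h1' : ∀ y : ℝ, 0 ≤ y → ‖h y‖ ≤ c * Real.exp (-(y / 4)))
    (h2 : ∀ y : ℝ, 0 ≤ y → ‖h y - Complex.exp (-(y / 2)) * (A₀ * y + A₁)‖ ≤ c * Real.exp (-y)) {Λ : ℝ}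
    (u : ℝ) (hv : 0 ≤ u + Λ) : ‖DD h Λ F u‖ ≤ Real.exp (-((u + Λ) / 2)) *
        ((‖A₀‖ * (u + Λ) + ‖A₁‖) * |∫ t : ℝ, Real.exp (-(t / 2)) * F t| +
          ‖A₀‖ * |∫ t : ℝ, Real.exp (-(t / 2)) * (t * F t)|) + 2 * c * Real.exp (-(u + Λ)) := by
  have hc0 := c_nonneg h1
  have ie : IntegrableOn (fun t : ℝ => c * Real.exp (-(u + Λ)) * Real.exp (-(1 / 2) * t)) (Set.Ioi 0) :=
    (exp_neg_integrableOn_Ioi 0 (by norm_num : (0 : ℝ) < 1 / 2)).const_mul _
  have iI : Integrable (Set.indicator (Set.Ici 0) (fun t : ℝ => c * Real.exp (-(u + Λ)) * Real.exp (-(1 / 2) * t))) := by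
    rw [integrable_indicator_iff measurableSet_Ici, integrableOn_Ici_iff_integrableOn_Ioi]
    exact ie
  have key := DD_split hm h0 hFi hc h1 h1' A₀ A₁ Λ u (R := 2 * c * Real.exp (-(u + Λ))) iI ?_ ?_
  · rwa [abs_of_nonneg hv] at key
  · rw [integral_indicator measurableSet_Ici, integral_Ici_eq_integral_Ioi, integral_const_mul]
    have e6 := integral_exp_mul_Ioi (a := -(1 / 2 : ℝ)) (by norm_num) 0
    rw [e6]
    apply le_of_eq
    simp
    ring
  · intro t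
    rcases lt_or_ge t 0 with ht | ht
    · rw [Set.indicator_of_notMem (by simpa using ht)]
      simp [h0 t ht]
    · rw [Set.indicator_of_mem (by simpa using ht)]
      rw [norm_mul, Complex.norm_real, Real.norm_eq_abs]
      have e5 := h2 (u + Λ + t) (by linarith)
      calc |F t| * ‖h (u + Λ + t) - Complex.exp (-(((u + Λ + t : ℝ) : ℂ) / 2)) *
            (A₀ * ((u + Λ + t : ℝ) : ℂ) + A₁)‖ ≤ Real.exp (t / 2) * (c * Real.exp (-(u + Λ + t))) :=
            mul_le_mul (hF t) e5 (norm_nonneg _) (Real.exp_nonneg _)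
        _ = c * (Real.exp (t / 2) * Real.exp (-(u + Λ + t))) := by ring
        _ = c * Real.exp (-(u + Λ)) * Real.exp (-(1 / 2) * t) := by
            rw [← Real.exp_add, mul_assoc, ← Real.exp_add]; congr 2; ring

private theorem DD_bound_neg {F : ℝ → ℝ} (hm : Measurable F) (h0 : ∀ t < 0, F t = 0) (hF : ∀ t, |F t| ≤ Real.exp (t / 2))
    (hFi : ∀ x : ℝ, 0 < x → Integrable (fun t : ℝ => Real.exp (-(x * t)) * F t)) {h : ℝ → ℂ} (hc : Continuous h)
    {A₀ A₁ : ℂ} {c : ℝ} (h1 : ∀ y, ‖h y‖ ≤ c) (h1' : ∀ y : ℝ, 0 ≤ y → ‖h y‖ ≤ c * Real.exp (-(y / 4)))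
    (h2 : ∀ y : ℝ, 0 ≤ y → ‖h y - Complex.exp (-(y / 2)) * (A₀ * y + A₁)‖ ≤ c * Real.exp (-y)) {Λ : ℝ}
    (u s : ℝ) (hv : u + Λ = -s) (hs : 0 < s) : ‖DD h Λ F u‖ ≤ Real.exp (s / 2) *
        ((‖A₀‖ * s + ‖A₁‖) * |∫ t : ℝ, Real.exp (-(t / 2)) * F t| +
          ‖A₀‖ * |∫ t : ℝ, Real.exp (-(t / 2)) * (t * F t)|) +
        (4 * c * Real.exp (s / 2) + Real.exp (s / 2) * (‖A₀‖ * s + ‖A₁‖) * s) := by
  have hc0 := c_nonneg h1
  have iE : Integrable (fun t : ℝ => c * Real.exp (s / 2) * Real.exp (-(1 / 2 * |t + -s|))) :=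
    ((exp_abs_int (b := 1 / 2) (by norm_num)).comp_add_right (-s)).const_mul _
  have iI : Integrable (Set.indicator (Set.Ico 0 s) (fun _ : ℝ => Real.exp (s / 2) * (‖A₀‖ * s + ‖A₁‖))) := by
    rw [integrable_indicator_iff measurableSet_Ico]
    exact integrableOn_const (by simp)
  have key := DD_split hm h0 hFi hc h1 h1' A₀ A₁ Λ u
    (R := 4 * c * Real.exp (s / 2) + Real.exp (s / 2) * (‖A₀‖ * s + ‖A₁‖) * s) (iE.add iI) ?_ ?_
  · rw [hv, abs_neg, abs_of_pos hs] at key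
    have e1 : -(-s / 2) = s / 2 := by ring
    rwa [e1] at key
  · apply le_of_eq
    simp only [Pi.add_apply]
    rw [integral_add iE iI, integral_indicator measurableSet_Ico, setIntegral_const, integral_const_mul,
      integral_add_right_eq_self (fun y : ℝ => Real.exp (-(1 / 2 * |y|))) (-s), half_abs_integral]
    simp [hs.le]
    ring
  · intro t
    simp only [Pi.add_apply]
    rw [hv]
    rcases lt_or_ge t 0 with ht | ht
    · rw [h0 t ht]
      have p1 : 0 ≤ Set.indicator (Set.Ico 0 s) (fun _ : ℝ => Real.exp (s / 2) * (‖A₀‖ * s + ‖A₁‖)) t :=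
        Set.indicator_nonneg (fun _ _ => by positivity) t
      have p2 : 0 ≤ c * Real.exp (s / 2) * Real.exp (-(1 / 2 * |t + -s|)) := by positivity
      simp only [Complex.ofReal_zero, zero_mul, norm_zero]
      linarith
    · rcases lt_or_ge t s with hts | hts
      · rw [Set.indicator_of_mem (show t ∈ Set.Ico 0 s from ⟨ht, hts⟩), norm_mul, Complex.norm_real, Real.norm_eq_abs]
        have e1 : ‖Complex.exp (-(((-s + t : ℝ) : ℂ) / 2)) * (A₀ * ((-s + t : ℝ) : ℂ) + A₁)‖ ≤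
            Real.exp ((s - t) / 2) * (‖A₀‖ * s + ‖A₁‖) := by
          rw [norm_mul, Complex.norm_exp]
          have e2 : (-(((-s + t : ℝ) : ℂ) / 2)).re = (s - t) / 2 := by
            have : (-(((-s + t : ℝ) : ℂ) / 2)) = (((s - t) / 2 : ℝ) : ℂ) := by push_cast; ring
            rw [this, Complex.ofReal_re]
          rw [e2]
          apply mul_le_mul_of_nonneg_left _ (Real.exp_nonneg _)
          refine (norm_add_le _ _).trans ?_
          rw [norm_mul, Complex.norm_real, Real.norm_eq_abs]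
          have e3 : |(-s + t)| ≤ s := by rw [abs_le]; constructor <;> linarith
          have := mul_le_mul_of_nonneg_left e3 (norm_nonneg A₀)
          linarith
        have e4 : Real.exp (-(1 / 2 * |t + -s|)) = Real.exp ((t - s) / 2) := by
          rw [abs_of_neg (by linarith)]; congr 1; ring
        rw [e4]
        calc |F t| * ‖h (-s + t) - Complex.exp (-(((-s + t : ℝ) : ℂ) / 2)) * (A₀ * ((-s + t : ℝ) : ℂ) + A₁)‖ ≤
              Real.exp (t / 2) * (c + Real.exp ((s - t) / 2) * (‖A₀‖ * s + ‖A₁‖)) := by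
                refine mul_le_mul (hF t) ?_ (norm_nonneg _) (Real.exp_nonneg _)
                exact (norm_sub_le _ _).trans (add_le_add (h1 _) e1)
          _ = c * Real.exp (t / 2) + (Real.exp (t / 2) * Real.exp ((s - t) / 2)) * (‖A₀‖ * s + ‖A₁‖) := by ring
          _ = c * Real.exp (s / 2) * Real.exp ((t - s) / 2) + Real.exp (s / 2) * (‖A₀‖ * s + ‖A₁‖) := by
              rw [← Real.exp_add, mul_assoc, ← Real.exp_add]
              congr 3 <;> ring
      · rw [Set.indicator_of_notMem (by simp [hts]), norm_mul, Complex.norm_real, Real.norm_eq_abs, add_zero]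
        have e5 := h2 (-s + t) (by linarith)
        have e4 : Real.exp (-(1 / 2 * |t + -s|)) = Real.exp (-((t - s) / 2)) := by
          rw [abs_of_nonneg (by linarith)]; congr 1; ring
        rw [e4]
        calc |F t| * ‖h (-s + t) - Complex.exp (-(((-s + t : ℝ) : ℂ) / 2)) * (A₀ * ((-s + t : ℝ) : ℂ) + A₁)‖ ≤
              Real.exp (t / 2) * (c * Real.exp (-(-s + t))) := mul_le_mul (hF t) e5 (norm_nonneg _) (Real.exp_nonneg _)
          _ = c * (Real.exp (t / 2) * Real.exp (-(-s + t))) := by ring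
          _ = c * Real.exp (s / 2) * Real.exp (-((t - s) / 2)) := by
              rw [← Real.exp_add, mul_assoc, ← Real.exp_add]; congr 2; ring

private theorem DD_tendsto {F : ℝ → ℝ} (h0 : ∀ t < 0, F t = 0)
    (hFi : ∀ x : ℝ, 0 < x → Integrable (fun t : ℝ => Real.exp (-(x * t)) * F t)) {h : ℝ → ℂ}
    {c : ℝ} (h1' : ∀ y : ℝ, 0 ≤ y → ‖h y‖ ≤ c * Real.exp (-(y / 4))) (Λ : ℝ) :
    Tendsto (DD h Λ F) atTop (𝓝 0) := by
  have hb : ∀ u : ℝ, 0 ≤ u + Λ → ‖DD h Λ F u‖ ≤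
      (c * ∫ t : ℝ, ‖Real.exp (-(1 / 4 * t)) * F t‖) * Real.exp (-((u + Λ) / 4)) := by
    intro u hu
    have hi := ((hFi (1 / 4) (by norm_num)).norm).const_mul (c * Real.exp (-((u + Λ) / 4)))
    have e1 : ‖DD h Λ F u‖ ≤ ∫ t : ℝ, c * Real.exp (-((u + Λ) / 4)) * ‖Real.exp (-(1 / 4 * t)) * F t‖ := by
      unfold DD
      refine norm_integral_le_of_norm_le hi (Filter.Eventually.of_forall fun t => ?_)
      rcases lt_or_ge t 0 with ht | ht
      · simp [h0 t ht]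
      · rw [norm_mul, Complex.norm_real, norm_mul, Real.norm_of_nonneg (Real.exp_nonneg _)]
        calc ‖F t‖ * ‖h (u + t + Λ)‖ ≤ ‖F t‖ * (c * Real.exp (-((u + t + Λ) / 4))) :=
              mul_le_mul_of_nonneg_left (h1' _ (by linarith)) (norm_nonneg _)
          _ = c * (Real.exp (-((u + t + Λ) / 4))) * ‖F t‖ := by ring
          _ = c * (Real.exp (-((u + Λ) / 4)) * Real.exp (-(1 / 4 * t))) * ‖F t‖ := by
              rw [← Real.exp_add]; congr 3; ring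
          _ = _ := by ring
    rw [integral_const_mul] at e1
    calc ‖DD h Λ F u‖ ≤ _ := e1
      _ = _ := by ring
  have ht : Tendsto (fun u : ℝ => (c * ∫ t : ℝ, ‖Real.exp (-(1 / 4 * t)) * F t‖) * Real.exp (-((u + Λ) / 4)))
      atTop (𝓝 0) := by
    have e1 : Tendsto (fun u : ℝ => (u + Λ) / 4) atTop atTop :=
      (tendsto_atTop_add_const_right _ _ tendsto_id).atTop_div_const (by norm_num)
    have e2 := (Real.tendsto_exp_neg_atTop_nhds_zero.comp e1).const_mul (c * ∫ t : ℝ, ‖Real.exp (-(1 / 4 * t)) * F t‖)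
    simpa using e2
  refine squeeze_zero_norm' ?_ ht
  filter_upwards [eventually_ge_atTop (-Λ)] with u hu
  exact hb u (by linarith)

/-- QTL6 -/
theorem D_props2 {F : ℝ → ℝ} (hm : Measurable F) (h0 : ∀ t < 0, F t = 0) (hF : ∀ t, |F t| ≤ Real.exp (t / 2))
    (hFi : ∀ x : ℝ, 0 < x → Integrable (fun t : ℝ => Real.exp (-(x * t)) * F t))
    (hFw : Integrable (fun t : ℝ => F t * ((1 + |t|) ^ 3)⁻¹)) {h : ℝ → ℂ} (hc : Continuous h) {A₀ A₁ : ℂ} {c : ℝ}
    (h1 : ∀ y, ‖h y‖ ≤ c) (h1' : ∀ y : ℝ, 0 ≤ y → ‖h y‖ ≤ c * Real.exp (-(y / 4)))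
    (h2 : ∀ y : ℝ, 0 ≤ y → ‖h y - Complex.exp (-(y / 2)) * (A₀ * y + A₁)‖ ≤ c * Real.exp (-y)) (Λ : ℝ) :
    Continuous (DD h Λ F) ∧ Integrable (fun u : ℝ => DD h Λ F u * ((((1 + u ^ 2) ^ 2)⁻¹ : ℝ) : ℂ)) ∧
      (∀ δ : ℝ, 0 < δ → δ < 1 / 4 → Integrable (fun u : ℝ => Complex.exp (δ * u) * DD h Λ F u)) ∧
      (∀ z : ℂ, -(1 / 4) < z.re → z.re < 0 → ∫ u : ℝ, Complex.exp (-z * u) * DD h Λ F u =
        Complex.exp (z * Λ) * (∫ t : ℝ, Complex.exp (z * t) * (F t : ℂ)) * ∫ y : ℝ, Complex.exp (-z * y) * h y) ∧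
      Tendsto (DD h Λ F) atTop (𝓝 0) ∧
      (0 ≤ Λ → ∀ u : ℝ, 0 ≤ u → ‖DD h Λ F u‖ ≤ Real.exp (-((u + Λ) / 2)) *
        ((‖A₀‖ * (u + Λ) + ‖A₁‖) * |∫ t : ℝ, Real.exp (-(t / 2)) * F t| +
          ‖A₀‖ * |∫ t : ℝ, Real.exp (-(t / 2)) * (t * F t)|) + 2 * c * Real.exp (-(u + Λ))) ∧
      (Λ ≤ 0 → ∀ u : ℝ, 0 ≤ u → ‖DD h Λ F u‖ ≤ Real.exp (-Λ / 2) *
        ((‖A₀‖ + ‖A₁‖) * (1 - Λ) * (1 - Λ + |∫ t : ℝ, Real.exp (-(t / 2)) * F t|) +
          ‖A₀‖ * |∫ t : ℝ, Real.exp (-(t / 2)) * (t * F t)| + 4 * c)) := by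
  have hc0 := c_nonneg h1
  refine ⟨DD_cont hm h0 hFi hc h1 h1', ?_, ?_, ?_, DD_tendsto h0 hFi h1' Λ,
    fun hΛ u hu => DD_bound hm h0 hF hFi hc h1 h1' h2 u (by linarith), ?_⟩
  · have h3 := (wt_prod_int hm h0 hFw hc h1 h1' Λ).integral_prod_left
    refine h3.congr (Filter.Eventually.of_forall fun u => ?_)
    simp only
    rw [integral_const_mul, mul_comm]
    rfl
  · intro δ hδ hδ'
    have h3 := (exp_prod_int hm h0 hFi hc h1 h1' (Λ := Λ) (z := ((-δ : ℝ) : ℂ)) (by simp; linarith)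
      (by simp; linarith)).integral_prod_left
    refine h3.congr (Filter.Eventually.of_forall fun u => ?_)
    simp only
    rw [integral_const_mul]
    have e1 : Complex.exp (-((-δ : ℝ) : ℂ) * (u : ℂ)) = Complex.exp ((δ : ℂ) * u) := by
      congr 1; push_cast; ring
    rw [e1]
    rfl
  · intro z hz1 hz2
    have h3 := exp_prod_int hm h0 hFi hc h1 h1' (Λ := Λ) hz1 hz2
    have e1 : ∫ u : ℝ, Complex.exp (-z * u) * DD h Λ F u =
        ∫ u : ℝ, ∫ t : ℝ, Complex.exp (-z * u) * ((F t : ℂ) * h (u + t + Λ)) := by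
      congr 1
      funext u
      rw [integral_const_mul]
      rfl
    rw [e1, integral_integral_swap h3]
    have e2 : ∀ t : ℝ, ∫ u : ℝ, Complex.exp (-z * u) * ((F t : ℂ) * h (u + t + Λ)) =
        Complex.exp (z * Λ) * (Complex.exp (z * t) * (F t : ℂ)) * ∫ y : ℝ, Complex.exp (-z * y) * h y := by
      intro t
      have e3 : ∀ u : ℝ, Complex.exp (-z * u) * ((F t : ℂ) * h (u + t + Λ)) =
          (Complex.exp (z * Λ) * (Complex.exp (z * t) * (F t : ℂ))) *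
            (Complex.exp (-z * ((u + (t + Λ) : ℝ) : ℂ)) * h (u + (t + Λ))) := by
        intro u
        have e4 := shift_eq h z (t + Λ) u
        have e5 : Complex.exp (z * ((t + Λ : ℝ) : ℂ)) = Complex.exp (z * Λ) * Complex.exp (z * t) := by
          rw [← Complex.exp_add]; congr 1; push_cast; ring
        rw [e5] at e4
        have e6 : Complex.exp (-z * u) * ((F t : ℂ) * h (u + t + Λ)) =
            (F t : ℂ) * (Complex.exp (-z * u) * h (u + (t + Λ))) := by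
          rw [← add_assoc]; ring
        rw [e6, e4]
        ring
      simp only [e3]
      rw [integral_const_mul]
      congr 1
      exact integral_add_right_eq_self (fun y : ℝ => Complex.exp (-z * (y : ℂ)) * h y) (t + Λ)
    simp only [e2]
    rw [integral_mul_const, integral_const_mul]
  · intro hΛ u hu
    set I₁ : ℝ := |∫ t : ℝ, Real.exp (-(t / 2)) * F t| with hI₁
    set I₂ : ℝ := |∫ t : ℝ, Real.exp (-(t / 2)) * (t * F t)| with hI₂
    have n1 : 0 ≤ I₁ := abs_nonneg _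
    have n2 : 0 ≤ I₂ := abs_nonneg _
    have a0 := norm_nonneg A₀
    have a1 := norm_nonneg A₁
    have m1 : 1 ≤ Real.exp (-Λ / 2) := Real.one_le_exp (by linarith)
    rcases lt_or_ge (u + Λ) 0 with hv | hv
    · have key := DD_bound_neg hm h0 hF hFi hc h1 h1' h2 (Λ := Λ) u (-(u + Λ)) (by ring) (by linarith)
      rw [← hI₁, ← hI₂] at key
      set s : ℝ := -(u + Λ) with hs
      have s0 : 0 < s := by rw [hs]; linarith
      have s1 : s ≤ -Λ := by rw [hs]; linarith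
      refine key.trans ?_
      have e1 : Real.exp (s / 2) ≤ Real.exp (-Λ / 2) := Real.exp_le_exp.mpr (by linarith)
      have e2 : Real.exp (s / 2) * ((‖A₀‖ * s + ‖A₁‖) * I₁ + ‖A₀‖ * I₂) +
          (4 * c * Real.exp (s / 2) + Real.exp (s / 2) * (‖A₀‖ * s + ‖A₁‖) * s) =
          Real.exp (s / 2) * ((‖A₀‖ * s + ‖A₁‖) * (s + I₁) + ‖A₀‖ * I₂ + 4 * c) := by ring
      rw [e2]
      refine mul_le_mul e1 ?_ (by positivity) (Real.exp_nonneg _)
      have e3 : (‖A₀‖ * s + ‖A₁‖) ≤ (‖A₀‖ + ‖A₁‖) * (1 - Λ) := by nlinarith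
      have e4 : s + I₁ ≤ 1 - Λ + I₁ := by linarith
      have e5 := mul_le_mul e3 e4 (by positivity) (by
        have : 0 ≤ 1 - Λ := by linarith
        positivity)
      linarith
    · have key := DD_bound hm h0 hF hFi hc h1 h1' h2 u hv
      rw [← hI₁, ← hI₂] at key
      refine key.trans ?_
      set v : ℝ := u + Λ with hvv
      have e1 : Real.exp (-(v / 2)) ≤ 1 := Real.exp_le_one_iff.mpr (by linarith)
      have e1' : 0 < Real.exp (-(v / 2)) := Real.exp_pos _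
      have e2 : Real.exp (-v) ≤ 1 := Real.exp_le_one_iff.mpr (by linarith)
      have e3 : Real.exp (-(v / 2)) * v ≤ 1 := by
        have q1 := Real.quadratic_le_exp_of_nonneg (show 0 ≤ v / 2 by linarith)
        have q2 : Real.exp (-(v / 2)) * Real.exp (v / 2) = 1 := by
          rw [← Real.exp_add]; simp
        have q3 : v ≤ Real.exp (v / 2) := by nlinarith [sq_nonneg (v - 2)]
        calc Real.exp (-(v / 2)) * v ≤ Real.exp (-(v / 2)) * Real.exp (v / 2) :=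
              mul_le_mul_of_nonneg_left q3 e1'.le
          _ = 1 := q2
      have f1 : Real.exp (-(v / 2)) * ((‖A₀‖ * v + ‖A₁‖) * I₁ + ‖A₀‖ * I₂) + 2 * c * Real.exp (-v) =
          (Real.exp (-(v / 2)) * v) * (‖A₀‖ * I₁) + Real.exp (-(v / 2)) * (‖A₁‖ * I₁ + ‖A₀‖ * I₂) +
            Real.exp (-v) * (2 * c) := by ring
      have f2 : (Real.exp (-(v / 2)) * v) * (‖A₀‖ * I₁) ≤ 1 * (‖A₀‖ * I₁) :=
        mul_le_mul_of_nonneg_right e3 (by positivity)
      have f3 : Real.exp (-(v / 2)) * (‖A₁‖ * I₁ + ‖A₀‖ * I₂) ≤ 1 * (‖A₁‖ * I₁ + ‖A₀‖ * I₂) :=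
        mul_le_mul_of_nonneg_right e1 (by positivity)
      have f4 : Real.exp (-v) * (2 * c) ≤ 1 * (2 * c) := mul_le_mul_of_nonneg_right e2 (by positivity)
      have g1 : I₁ ≤ (1 - Λ) * (1 - Λ + I₁) := by nlinarith
      have g2 : (‖A₀‖ + ‖A₁‖) * I₁ ≤ (‖A₀‖ + ‖A₁‖) * ((1 - Λ) * (1 - Λ + I₁)) :=
        mul_le_mul_of_nonneg_left g1 (by positivity)
      have g3 : 0 ≤ (‖A₀‖ + ‖A₁‖) * (1 - Λ) * (1 - Λ + I₁) + ‖A₀‖ * I₂ + 4 * c := by
        have q1 : 0 ≤ 1 - Λ := by linarith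
        have q2 : 0 ≤ 1 - Λ + I₁ := by linarith
        positivity
      have g4 : 1 * ((‖A₀‖ + ‖A₁‖) * (1 - Λ) * (1 - Λ + I₁) + ‖A₀‖ * I₂ + 4 * c) ≤ Real.exp (-Λ / 2) *
          ((‖A₀‖ + ‖A₁‖) * (1 - Λ) * (1 - Λ + I₁) + ‖A₀‖ * I₂ + 4 * c) := mul_le_mul_of_nonneg_right m1 g3
      rw [f1]
      linarith

end Pool.Agent.QT
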